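import Pool.Agent.Helper64.PC.Frc

/-!
# From the forcing relation to the name of an ultrafilter (module UNAME)
-/

namespace Pool.Agent.Helper86.PC

open Pool.Agent.Helper46.SP Pool.Agent.Helper94.SP Pool.Agent.Helper64.PC Name Set

section

variable {P : Type} [Preorder P] [OrderTop P]

/-- The name of an ultrafilter from the forcing relation. -/
def toUName {F : Name P} {p₀ : P} (hF : NUltra F p₀) : UName P p₀ ℕ where
  W X p := FMem (rho X) F p
  mono X p q h hq := fmem_mono h hq
  dense X p h := fmem_dense h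
  inter X Y Z p hp hX hY h := by
    obtain ⟨_, hup, hint, _, _, _⟩ := hF
    refine hup _ Z p hp (hint X Y p hp hX hY) fun i r hr hf => ?_
    refine Fd.dense fun q hq => ?_
    obtain ⟨s, hs', a, ⟨h1, h2⟩, hsa⟩ := hf q hq
    exact ⟨s, hs', h i s (hs'.trans (hq.trans hr)) (h1.mono hsa) (h2.mono hsa)⟩
  ultra X Y p hp h := by
    obtain ⟨_, hup, _, hult, _, _⟩ := hF
    obtain ⟨r, hr, h1 | h1⟩ := hult X p hp
    · exact ⟨r, hr, Or.inl h1⟩
    · refine ⟨r, hr, Or.inr (hup _ Y r (hr.trans hp) h1 fun i s hs' hf => ?_)⟩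
      refine Fd.dense fun q hq => ?_
      obtain ⟨t, ht, a, ha, hta⟩ := hf q hq
      obtain ⟨u, hu, h2 | h2⟩ := h i t (ht.trans (hq.trans (hs'.trans hr)))
      · exact absurd h2 (ha u (hu.trans hta))
      · exact ⟨u, hu.trans ht, h2⟩
  ne X p hp h := by
    obtain ⟨_, hup, _, _, hne, _⟩ := hF
    by_contra hc
    have hc' : ∀ i, ∀ q ≤ p, ¬ Fd (X i) q := fun i q hq hf => hc ⟨i, q, hq, hf⟩
    exact hne X p hp h (hup X _ p hp h fun i r hr hf => absurd hf (hc' i r hr))

theorem st_uname : ST_uname := by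
  intro P _ _ F p₀ hF
  refine ⟨toUName hF, fun X p => Iff.rfl, fun N => ?_⟩
  induction N with
  | zero =>
    exact (toUName hF).up_sub le_rfl ((toUName hF).univ le_rfl) fun i r _ => Nat.zero_le i
  | succ N ih =>
    refine (toUName hF).ground_or (Y := {i | i = N}) (Y' := {i | N + 1 ≤ i}) le_rfl ?_ ?_
    · refine (toUName hF).up_sub le_rfl ih fun i r hr => ?_
      have hr' : N ≤ i := hr
      rcases hr'.eq_or_lt with h | h
      · exact Or.inl h.symm
      · exact Or.inr h
    · intro q hq h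
      exact hF.2.2.2.2.2 N q hq h

end

end Pool.Agent.Helper86.PC
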